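import Mathlib
import Pool.Agent.Y582.HC.Final

set_option autoImplicit false

/-!
# The square bracket relation `μ⁺⁺ → [μ⁺]^{ℵ₀}_{μ⁺}` with `μ = 2 ^ ℵ₀`: the infinitary Chang
conjecture, for `ℵ₁` functions at once and with all but `ℵ₁` colours omitted
-/

namespace Pool.Agent.Results.MP_f663dd_lc.ChangInfinitary

open Cardinal Pool.Agent.Helper669.Forcing Pool.Agent.Helper669.K Pool.Agent.Helper669.U
  Pool.Agent.Y582.HC

/-- Let `κ` be a huge cardinal with target `m`, and let `k` be the `κ`-th element of `m`. There is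
a forcing notion which forces that `ω₁`, `κ` and `m` are regular cardinals, every cardinal below
`κ` has cardinality at most `ℵ₁`, every cardinal below `m` has cardinality at most `κ` (so
`κ = ℵ₂` and `m = ℵ₃`), the continuum hypothesis holds (so `μ = 2 ^ ℵ₀ = ℵ₁`, `κ = μ⁺` and
`m = μ⁺⁺`), and: for all families of functions `c i : [m]^{ℵ₀} → m` and `d i : [m]^{ℵ₀} → κ`,
`i < ω₁`, there is one set `X ⊆ m` of order type `κ` such that `X ∩ κ` is an ordinal below `κ`,
`X` is closed under all the functions `c i`, and all the values of all the functions `d i` on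
`[X]^{ℵ₀}` are below some fixed `b < κ`. -/
theorem result (κ m : Cardinal.{0}) (h : IsHuge κ m) :
    ∃ (P : Type) (_ : Preorder P) (k : m.ord.ToType), Nonempty P ∧
      Nonempty (κ.ord.ToType ≃o Set.Iio k) ∧ ∀ p : P,
      p ∈ StaysRegular P ℵ₁ ∧ p ∈ StaysRegular P κ ∧ p ∈ StaysRegular P m ∧
      p ∈ CollapsedTo P ℵ₁ κ ∧ p ∈ CollapsedTo P κ m ∧ p ∈ ForcesCH P ∧
      p ∈ ChangInf P (ℵ₁ : Cardinal.{0}).ord.ToType κ.ord.ToType m.ord.ToType k :=
  chang_iteration h

end Pool.Agent.Results.MP_f663dd_lc.ChangInfinitary
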